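import Pool.Agent.HMA.Main
import Pool.Agent.HMA.Goe

/-!
# MP_29c64e_gt, AlternatingAlgebraic

The Hirasawa-Murasugi inequality for all alternating algebraic (arborescent) links.

`T` runs through all tangles made from oriented crossings by horizontal and vertical sums, `c` through
the two closures. `foxC X T c` is the Fox matrix of the Wirtinger presentation of the closed diagram
(square, one row for every crossing, one column for every arc), `adjugate i j` is up to sign its
minor without the row `j` and the column `i`, i.e. the Alexander polynomial. `sigGL T c` is the
signature, computed by the theorem of Gordon and Litherland (signature of the Goeritz matrix minus the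
number of positive crossings).
-/

namespace Pool.Agent.Results.MP_29c64e_gt.AlternatingAlgebraic

open Polynomial Pool.Agent.HMA

/-- Every first minor of the Fox matrix has the form `± t^e ∑_{j ≤ N} (-1)^j a_j t^j` with
`a_j = a_(N-j)`, `0 < a_0 < a_1 < .. < a_r`, `r = (N - |σ|) / 2`, and `a_r ≤ .. ≤ a_⌊N/2⌋`; so the length
`N - 2 i` of a flat middle part `a_i = .. = a_(N-i)` is at most `|σ|` (see `Pattern`). -/
theorem result (T : Tangle) (c : Bool) (hT : T.Oriented) (hc : Closes T c) (i j : T.Cr) :
    Pattern ((foxC (X : ℤ[X]) T c).adjugate i j) (sigGL T c) := by
  rw [sigGL_eq]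
  exact mFin T c hT hc i j

end Pool.Agent.Results.MP_29c64e_gt.AlternatingAlgebraic
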