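import Pool.Agent.HMU.Main

/-!
# MP_29c64e_gt, OrientedTangleBraids

The Hirasawa-Murasugi inequality for all oriented alternating links which are closures of vertical words
of alternating algebraic tangles in three columns (closed alternating 3-braids with tangles in place of
the crossings), with any number of tangles and any orientation. These are the alternating links with
the Conway polyhedra `(σ₁ σ₂⁻¹)^n`: 6*, 8*, 10*, .., and (with a nugatory crossing) all algebraic ones.

A word `W : Wd` is a vertical sequence of alternating algebraic tangles, in the columns 1, 2 as they
are, in the columns 2, 3 rotated by a quarter turn (so that the diagram alternates). `Ori W`, `Clo3 W`: the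
orientations agree at all gluings of the closed diagram. `foxW X W` is the Fox matrix of the Wirtinger
presentation of the closed diagram, `adjugate i j` up to sign its minor without the row `j` and the
column `i`, i.e. the Alexander polynomial. `sigGLW W` is the signature, computed by the theorem of
Gordon and Litherland. `Pattern` is defined in `Pool/Agent/HMA/Defs.lean`.
-/

namespace Pool.Agent.Results.MP_29c64e_gt.OrientedTangleBraids

open Polynomial Pool.Agent.HMA Pool.Agent.HMT Pool.Agent.HMS Pool.Agent.HMU

/-- Every first minor of the Fox matrix has the form `± t^e ∑_{j ≤ N} (-1)^j a_j t^j` with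
`a_j = a_(N-j)`, `0 < a_0 < a_1 < .. < a_r`, `r = (N - |σ|) / 2`, and `a_r ≤ .. ≤ a_⌊N/2⌋`; so the length
`N - 2 i` of a flat middle part `a_i = .. = a_(N-i)` is at most `|σ|` (see `Pattern`). -/
theorem result (W : Wd) (hO : Ori W) (hC : Clo3 W) (i j : W.Cr) :
    Pattern ((foxW (X : ℤ[X]) W).adjugate i j) (sigGLW W) := by
  rw [tGoe W]
  exact mFinA W hO hC i j

end Pool.Agent.Results.MP_29c64e_gt.OrientedTangleBraids
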