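import Mathlib
import Pool.Agent.Lib.StL.Mat

open Polynomial

namespace Pool.Agent.Results.MP_29c64e_gt.StableRoots

open Pool.Agent.Lib.StL

variable {g : ℕ}

/-- The symmetrised Seifert form `V + Vᵀ` over the reals is Hermitian. -/
theorem sym_herm (V : Matrix (Fin (2 * g)) (Fin (2 * g)) ℤ) :
    ((V + V.transpose).map (Int.cast : ℤ → ℝ)).IsHermitian := by
  ext i j
  simp [Matrix.conjTranspose_apply, add_comm]

/-- Number of positive eigenvalues of `V + Vᵀ`. -/
noncomputable def posCount (V : Matrix (Fin (2 * g)) (Fin (2 * g)) ℤ) : ℕ :=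
  (Finset.univ.filter fun i => 0 < (sym_herm V).eigenvalues i).card

/-- Number of negative eigenvalues of `V + Vᵀ`. -/
noncomputable def negCount (V : Matrix (Fin (2 * g)) (Fin (2 * g)) ℤ) : ℕ :=
  (Finset.univ.filter fun i => (sym_herm V).eigenvalues i < 0).card

/-- The signature of `V + Vᵀ`. -/
noncomputable def signature (V : Matrix (Fin (2 * g)) (Fin (2 * g)) ℤ) : ℤ :=
  (posCount V : ℤ) - (negCount V : ℤ)

/-- `m` is admissible as a half-width of a flat middle block: `m ≤ g` and the numbers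
`(-1)^j c_j`, `g - m ≤ j ≤ g + m`, are all equal, `c_j` the coefficients of `det (t V - Vᵀ)`. -/
def Flat (V : Matrix (Fin (2 * g)) (Fin (2 * g)) ℤ) (m : ℕ) : Prop :=
  m ≤ g ∧ ∀ j : ℕ, g ≤ j + m → j ≤ g + m →
    (-1 : ℤ) ^ j * (alexander V).coeff j = (-1) ^ g * (alexander V).coeff g

/-- The number of distinct roots of the Alexander polynomial on the open upper half of the unit
circle. -/
noncomputable def upperRoots (V : Matrix (Fin (2 * g)) (Fin (2 * g)) ℤ) : ℕ :=
  Set.ncard {z : ℂ | ‖z‖ = 1 ∧ 0 < z.im ∧ aeval z (alexander V) = 0}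

theorem det_ne_zero (V : Matrix (Fin (2 * g)) (Fin (2 * g)) ℤ)
    (hV : (V - V.transpose).det = 1) : (V + V.transpose).det ≠ 0 := by
  intro h
  have h1 : (Int.castRingHom (ZMod 2)) (V + V.transpose).det =
      (Int.castRingHom (ZMod 2)) (V - V.transpose).det := by
    rw [RingHom.map_det, RingHom.map_det]
    congr 1
    ext i j
    simp [sub_eq_add_neg, CharTwo.neg_eq]
  rw [h, hV] at h1
  simp at h1

theorem cosPoly_one (V : Matrix (Fin (2 * g)) (Fin (2 * g)) ℤ)
    (hV : (V - V.transpose).det = 1) : (cosPoly V).eval 1 = 1 := by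
  have h := circle_eq V 0
  rw [Real.cos_zero] at h
  have h1 : ((alexander V).map (Int.castRingHom ℂ)).eval 1 = 1 := by
    rw [alexander_eval₂, one_smul]
    have : V.map (Int.cast : ℤ → ℂ) - V.transpose.map (Int.cast : ℤ → ℂ) =
        (Int.castRingHom ℂ).mapMatrix (V - V.transpose) := by
      ext i j; simp
    rw [this, ← RingHom.map_det, hV]; simp
  simp only [Complex.ofReal_zero, mul_zero, zero_mul, Complex.exp_zero, one_mul] at h
  rw [h1] at h
  exact_mod_cast h.symm

theorem cosPoly_neg_one (V : Matrix (Fin (2 * g)) (Fin (2 * g)) ℤ) :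
    (cosPoly V).eval (-1) = (-1) ^ g * (((V + V.transpose).det : ℤ) : ℝ) := by
  have h := circle_eq V Real.pi
  rw [Real.cos_pi] at h
  have h1 : ((alexander V).map (Int.castRingHom ℂ)).eval (-1) = (((V + V.transpose).det : ℤ) : ℂ) := by
    rw [alexander_eval₂]
    have : (-1 : ℂ) • V.map (Int.cast : ℤ → ℂ) - V.transpose.map (Int.cast : ℤ → ℂ) =
        -((Int.castRingHom ℂ).mapMatrix (V + V.transpose)) := by
      ext i j; simp; ring
    rw [this, Matrix.det_neg, ← RingHom.map_det, Fintype.card_fin, pow_mul]; simp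
  have h2 : Complex.exp (-(g : ℂ) * (Real.pi : ℂ) * Complex.I) = (-1) ^ g := by
    have : -(g : ℂ) * (Real.pi : ℂ) * Complex.I = (g : ℂ) * (-(Real.pi * Complex.I)) := by ring
    rw [this, Complex.exp_nat_mul, Complex.exp_neg, Complex.exp_pi_mul_I]
    norm_num
  rw [Complex.exp_pi_mul_I, h1, h2] at h
  apply Complex.ofReal_injective
  rw [← h, Complex.ofReal_mul, Complex.ofReal_pow, Complex.ofReal_neg, Complex.ofReal_one,
    Complex.ofReal_intCast]

theorem det_sign (V : Matrix (Fin (2 * g)) (Fin (2 * g)) ℤ)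
    (hV : (V - V.transpose).det = 1) :
    0 < (-1 : ℝ) ^ negCount V * (((V + V.transpose).det : ℤ) : ℝ) ∧
      posCount V + negCount V = 2 * g := by
  classical
  have hdet : (((V + V.transpose).det : ℤ) : ℝ) = ∏ i, (sym_herm V).eigenvalues i := by
    have h1 := (sym_herm V).det_eq_prod_eigenvalues
    have h2 : ((V + V.transpose).map (Int.cast : ℤ → ℝ)) =
        (Int.castRingHom ℝ).mapMatrix (V + V.transpose) := rfl
    have h3 : ((V + V.transpose).map (Int.cast : ℤ → ℝ)).det = (((V + V.transpose).det : ℤ) : ℝ) := by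
      rw [h2, ← RingHom.map_det]; rfl
    rw [← h3, h1]
    simp
  have hne : ∀ i, (sym_herm V).eigenvalues i ≠ 0 := by
    intro i hi
    have : (((V + V.transpose).det : ℤ) : ℝ) = 0 := by
      rw [hdet]; exact Finset.prod_eq_zero (Finset.mem_univ i) hi
    exact det_ne_zero V hV (by exact_mod_cast this)
  constructor
  · have h1 : (-1 : ℝ) ^ negCount V = ∏ i, (if (sym_herm V).eigenvalues i < 0 then (-1 : ℝ) else 1) := by
      rw [Finset.prod_ite, Finset.prod_const, Finset.prod_const_one, mul_one]; rfl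
    rw [h1, hdet, ← Finset.prod_mul_distrib]
    refine Finset.prod_pos fun i _ => ?_
    rcases lt_or_gt_of_ne (hne i) with h | h
    · rw [if_pos h]; linarith
    · rw [if_neg (not_lt.2 h.le)]; linarith
  · unfold posCount negCount
    have h2 : (Finset.univ.filter fun i => (sym_herm V).eigenvalues i < 0) =
        Finset.univ.filter fun i => ¬ 0 < (sym_herm V).eigenvalues i := by
      refine Finset.filter_congr fun i _ => ?_
      constructor
      · intro h; exact not_lt.2 h.le
      · intro h; exact lt_of_le_of_ne (not_lt.1 h) (hne i)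
    rw [h2, Finset.card_filter_add_card_filter_not]
    simp

theorem card_le_upperRoots (V : Matrix (Fin (2 * g)) (Fin (2 * g)) ℤ)
    (hV : (V - V.transpose).det = 1) : (oddRoots (cosPoly V)).card ≤ upperRoots V := by
  have hQ : cosPoly V ≠ 0 := by
    intro h
    have := cosPoly_one V hV
    rw [h] at this; simp at this
  have hP : (alexander V).map (Int.castRingHom ℂ) ≠ 0 := by
    intro h
    have h1 := circle_eq V 0
    rw [h, Real.cos_zero, cosPoly_one V hV] at h1
    simp at h1
  have hev : ∀ z : ℂ, aeval z (alexander V) = ((alexander V).map (Int.castRingHom ℂ)).eval z := by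
    intro z
    rw [aeval_def, eval_map, algebraMap_int_eq]
  have hfin : Set.Finite {z : ℂ | ‖z‖ = 1 ∧ 0 < z.im ∧ aeval z (alexander V) = 0} := by
    refine Set.Finite.subset (((alexander V).map (Int.castRingHom ℂ)).roots.toFinset.finite_toSet) ?_
    rintro z ⟨_, _, hz⟩
    rw [Finset.mem_coe, Multiset.mem_toFinset, mem_roots hP, IsRoot.def, ← hev]
    exact hz
  unfold upperRoots
  rw [← Set.ncard_coe_finset (oddRoots (cosPoly V))]
  refine Set.ncard_le_ncard_of_injOn (fun r : ℝ => Complex.exp ((Real.arccos r : ℝ) * Complex.I))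
    ?_ ?_ hfin
  · intro r hr
    rw [Finset.mem_coe] at hr
    have hr1 := ((mem_oddRoots hQ).1 hr).1
    refine ⟨?_, ?_, ?_⟩
    · rw [Complex.norm_exp_ofReal_mul_I]
    · rw [Complex.exp_ofReal_mul_I_im]
      refine Real.sin_pos_of_pos_of_lt_pi ?_ ?_
      · rw [Real.arccos_pos]; exact hr1.2
      · refine lt_of_le_of_ne (Real.arccos_le_pi r) ?_
        intro h
        rw [Real.arccos_eq_pi] at h
        linarith [hr1.1]
    · rw [hev]
      have h1 := circle_eq V (Real.arccos r)
      rw [Real.cos_arccos hr1.1.le hr1.2.le, oddRoots_isRoot hQ hr, Complex.ofReal_zero,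
        mul_eq_zero] at h1
      rcases h1 with h1 | h1
      · exact absurd h1 (Complex.exp_ne_zero _)
      · exact h1
  · intro r hr s hs hrs
    rw [Finset.mem_coe] at hr hs
    have hr1 := ((mem_oddRoots hQ).1 hr).1
    have hs1 := ((mem_oddRoots hQ).1 hs).1
    have h2 := congrArg Complex.re hrs
    simp only [Complex.exp_ofReal_mul_I_re] at h2
    rwa [Real.cos_arccos hr1.1.le hr1.2.le, Real.cos_arccos hs1.1.le hs1.2.le] at h2

theorem parity (V : Matrix (Fin (2 * g)) (Fin (2 * g)) ℤ)
    (hV : (V - V.transpose).det = 1) :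
    Even ((oddRoots (cosPoly V)).card + g + negCount V) := by
  have hQ : cosPoly V ≠ 0 := by
    intro h
    have := cosPoly_one V hV
    rw [h] at this; simp at this
  set S := oddRoots (cosPoly V) with hS
  have hp1 : 0 < ∏ r ∈ S, ((1 : ℝ) - r) := by
    refine Finset.prod_pos fun r hr => ?_
    have := ((mem_oddRoots hQ).1 hr).1.2
    linarith
  have hp2 : ∏ r ∈ S, ((-1 : ℝ) - r) = (-1) ^ S.card * ∏ r ∈ S, (1 + r) := by
    rw [← Finset.prod_const, ← Finset.prod_mul_distrib]
    exact Finset.prod_congr rfl fun r _ => by ring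
  have hp3 : 0 < ∏ r ∈ S, ((1 : ℝ) + r) := by
    refine Finset.prod_pos fun r hr => ?_
    have := ((mem_oddRoots hQ).1 hr).1.1
    linarith
  have hpos : 0 ≤ (cosPoly V).eval (-1) * ∏ r ∈ S, ((-1 : ℝ) - r) := by
    rcases const_sign_mul (cosPoly V) hQ with h | h
    · exact h (-1) le_rfl (by norm_num)
    · exfalso
      have := h 1 (by norm_num) le_rfl
      rw [cosPoly_one V hV, one_mul] at this
      linarith
  rw [hp2, cosPoly_neg_one] at hpos
  obtain ⟨hd, -⟩ := det_sign V hV
  set d := (((V + V.transpose).det : ℤ) : ℝ) with hdd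
  by_contra hodd
  rw [Nat.not_even_iff_odd] at hodd
  have h1 : (-1 : ℝ) ^ (S.card + g + negCount V) = -1 := hodd.neg_one_pow
  have hsq : ((-1 : ℝ) ^ negCount V) * ((-1 : ℝ) ^ negCount V) = 1 := by
    rw [← pow_add]; exact (Even.add_self _).neg_one_pow
  have h2 : (-1 : ℝ) ^ g * d * ((-1) ^ S.card * ∏ r ∈ S, (1 + r)) =
      (-1 : ℝ) ^ (S.card + g + negCount V) * (((-1) ^ negCount V * d) * ∏ r ∈ S, (1 + r)) := by
    rw [pow_add, pow_add]
    linear_combination (-((-1 : ℝ) ^ S.card * (-1) ^ g * d * ∏ r ∈ S, (1 + r))) * hsq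
  rw [h2, h1] at hpos
  have h3 : 0 < ((-1 : ℝ) ^ negCount V * d) * ∏ r ∈ S, (1 + r) := mul_pos hd hp3
  linarith

/-- For every Seifert matrix `V` of a knot: a flat middle block of half-width `m` in the Alexander
polynomial forces at least `m` distinct roots on the open upper half of the unit circle; and if
`2m > |σ|` it forces at least `|σ|/2 + 2` of them. -/
theorem result : ∀ (g : ℕ) (V : Matrix (Fin (2 * g)) (Fin (2 * g)) ℤ),
    (V - V.transpose).det = 1 → ∀ m : ℕ, Flat V m →
      m ≤ upperRoots V ∧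
      (|signature V| < 2 * (m : ℤ) → |signature V| + 4 ≤ 2 * (upperRoots V : ℤ)) := by
  intro g V hV m hm
  have hQ : cosPoly V ≠ 0 := by
    intro h
    have := cosPoly_one V hV
    rw [h] at this; simp at this
  have h1 : m ≤ (oddRoots (cosPoly V)).card :=
    core _ (cosPoly V) g m hQ (circle_eq V) (flat_coeff V m hm.1 hm.2)
  have h2 := card_le_upperRoots V hV
  refine ⟨h1.trans h2, fun hs => ?_⟩
  obtain ⟨k, hk⟩ := parity V hV
  obtain ⟨-, hpn⟩ := det_sign V hV
  unfold signature at hs ⊢
  set N := (oddRoots (cosPoly V)).card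
  set p := posCount V
  set q := negCount V
  rcases abs_cases ((p : ℤ) - q) with ⟨h, _⟩ | ⟨h, _⟩ <;> rw [h] at hs ⊢ <;> omega

end Pool.Agent.Results.MP_29c64e_gt.StableRoots
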