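import Pool.Agent.HM3.Main

/-!
# MP_29c64e_gt, ThreeDisks

The Hirasawa-Murasugi inequality, with the trapezoidal pattern of the coefficients, for all links which
bound three disks in a row joined by bands with odd numbers of half twists: the closed alternating
3-braids (`k = 0`) and the links obtained from them by replacing each crossing `c` by `2 k c + 1`
crossings of two antiparallel strands. For knots `N = 2 n` and `n - s` is the stable length.
-/

namespace Pool.Agent.Results.MP_29c64e_gt.ThreeDisks

open Polynomial Pool.Agent.HM3

/-- The coefficients of the Alexander polynomial alternate in sign, their absolute values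
increase strictly up to the index `s`, are constant from `s` to `N - s`, decrease strictly
from `N - s` on, and the length `N - 2 s` of the flat part is at most `|signature|`. -/
theorem result : ∀ (N : ℕ) (w : Fin (N + 2) → Bool) (k : Fin (N + 2) → ℕ),
    (∃ i, w i = true) → (∃ i, w i = false) →
    (∀ j, j ≤ N → 0 < (-1 : ℤ) ^ j * (alexander (seifertW w k)).coeff j *
      (alexander (seifertW w k)).coeff 0) ∧
    (∀ j, N < j → (alexander (seifertW w k)).coeff j = 0) ∧
    ∃ s : ℕ, 2 * s ≤ N ∧
      (∀ j, j < s →
        |(alexander (seifertW w k)).coeff j| < |(alexander (seifertW w k)).coeff (j + 1)|) ∧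
      (∀ j, s ≤ j → j + s ≤ N →
        |(alexander (seifertW w k)).coeff j| = |(alexander (seifertW w k)).coeff s|) ∧
      (∀ j, N ≤ j + s → j < N →
        |(alexander (seifertW w k)).coeff (j + 1)| < |(alexander (seifertW w k)).coeff j|) ∧
      (N : ℤ) - 2 * s ≤ |signature (seifertW w k)| :=
  m_FinalT

end Pool.Agent.Results.MP_29c64e_gt.ThreeDisks
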